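import Pool.Agent.W613.MO.ZA
import Pool.Agent.H353R2.Z1

/-!
# `-ζ'/ζ(s) - 1/(s-1)` with finitely many poles removed
-/

set_option autoImplicit false

namespace Pool.Agent.R303.CZ

open Complex Filter Topology Set Metric
open Pool.Agent.W613.MO (logDeriv_zero_free Z1 Z1_ne Z1_one Z1_entire Z1_growth)

/-- division by finitely many zeros -/
theorem fac (Z : Finset ℂ) (F : ℂ → ℂ) (hF : Differentiable ℂ F) (h2 : F 2 ≠ 0) :
    ∃ (n : ℂ → ℕ) (H : ℂ → ℂ), Differentiable ℂ H ∧ (∀ s, F s = (∏ ρ ∈ Z, (s - ρ) ^ n ρ) * H s) ∧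
      (∀ ρ ∈ Z, H ρ ≠ 0) := by
  classical
  induction Z using Finset.induction_on with
  | empty => exact ⟨fun _ => 0, F, hF, by simp, by simp⟩
  | insert a Z ha ih =>
    obtain ⟨n, H, hH, hFH, hHZ⟩ := ih
    have hH2 : H 2 ≠ 0 := by
      intro h
      apply h2
      rw [hFH, h, mul_zero]
    have hHa : AnalyticAt ℂ H a := hH.analyticAt a
    have htop : analyticOrderAt H a ≠ ⊤ := by
      intro h
      have h1 : ∀ᶠ z in 𝓝 a, H z = 0 := analyticOrderAt_eq_top.1 h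
      have h3 : AnalyticOnNhd ℂ H univ := fun z _ => hH.analyticAt z
      have h4 := h3.eqOn_zero_of_preconnected_of_eventuallyEq_zero isPreconnected_univ (mem_univ a) h1
      exact hH2 (h4 (mem_univ 2))
    obtain ⟨k, hk⟩ := ENat.ne_top_iff_exists.1 htop
    obtain ⟨g, hg, hg0, hgeq⟩ := (hHa.analyticOrderAt_eq_natCast).1 hk.symm
    set H' : ℂ → ℂ := fun z => if z = a then g a else H z / (z - a) ^ k with hH'
    have e1 : ∀ s, H s = (s - a) ^ k * H' s := by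
      intro s
      by_cases h : s = a
      · have := hgeq.self_of_nhds
        rw [h, this, hH']
        simp
      · simp only [hH', if_neg h]
        have h4 : (s - a) ^ k ≠ 0 := pow_ne_zero _ (sub_ne_zero.2 h)
        field_simp
    refine ⟨fun ρ => if ρ = a then k else n ρ, H', ?_, ?_, ?_⟩
    · intro z
      by_cases h : z = a
      · rw [h]
        refine hg.differentiableAt.congr_of_eventuallyEq ?_
        filter_upwards [hgeq] with w hw
        by_cases h' : w = a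
        · simp [hH', h']
        · simp only [hH', if_neg h']
          have h4 : (w - a) ^ k ≠ 0 := pow_ne_zero _ (sub_ne_zero.2 h')
          rw [hw, smul_eq_mul, mul_div_cancel_left₀ _ h4]
      · have h5 : DifferentiableAt ℂ (fun w => H w / (w - a) ^ k) z :=
          (hH z).div (by fun_prop) (pow_ne_zero _ (sub_ne_zero.2 h))
        refine h5.congr_of_eventuallyEq ?_
        filter_upwards [isOpen_ne.mem_nhds h] with w hw
        simp only [hH', if_neg hw]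
    · intro s
      rw [Finset.prod_insert ha, hFH, e1]
      have e2 : ∏ ρ ∈ Z, (s - ρ) ^ (if ρ = a then k else n ρ) = ∏ ρ ∈ Z, (s - ρ) ^ n ρ := by
        refine Finset.prod_congr rfl fun ρ hρ => ?_
        have h7 : ρ ≠ a := fun h => ha (by rw [← h]; exact hρ)
        rw [if_neg h7]
      show _ = ((s - a) ^ (if a = a then k else n a) *
        ∏ ρ ∈ Z, (s - ρ) ^ (if ρ = a then k else n ρ)) * H' s
      rw [e2, if_pos rfl]
      ring
    · intro ρ hρ
      rcases Finset.mem_insert.1 hρ with h | h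
      · rw [h]
        simpa [hH'] using hg0
      · have h6 : ρ ≠ a := fun h7 => ha (h7 ▸ h)
        simp only [hH', if_neg h6]
        exact div_ne_zero (hHZ ρ h) (pow_ne_zero _ (sub_ne_zero.2 h6))

/-- the logarithmic derivative high up -/
lemma high {θ T : ℝ} (hθ : 1 / 2 ≤ θ) (hθ1 : θ < 1)
    (hz : ∀ s : ℂ, θ < s.re → T < |s.im| → Z1 s ≠ 0) {σ₀ : ℝ} (hσ : θ < σ₀) (h2 : σ₀ ≤ 2) :
    ∃ K : ℝ, 0 < K ∧ ∀ s : ℂ, σ₀ ≤ s.re → s.re ≤ 2 → T + 2 ≤ |s.im| →
      ‖deriv Z1 s / Z1 s‖ ≤ K * Real.log (|s.im| + 3) := by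
  obtain ⟨C, A, hC, hA, hgr⟩ := Z1_growth
  set K : ℝ := |Real.log (3 * C * 2 ^ A)| + A with hK
  have hK0 : 0 < K := by positivity
  refine ⟨16 * (2 - θ) / (σ₀ - θ) ^ 2 * K, by
    have : 0 < σ₀ - θ := by linarith
    have : 0 < 2 - θ := by linarith
    positivity, fun s hs1 hs2 hT => ?_⟩
  have him : (3 : ℝ) ≤ |s.im| + 3 := by linarith [abs_nonneg s.im]
  set L : ℝ := Real.log (|s.im| + 3) with hL
  have hL1 : 1 ≤ L := by
    rw [hL, Real.le_log_iff_exp_le (by linarith)]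
    have := Real.exp_one_lt_d9
    linarith
  set c : ℂ := ⟨2, s.im⟩ with hc
  have hcre : c.re = 2 := rfl
  have hcim : c.im = s.im := rfl
  have hball : ∀ z ∈ ball c (2 - θ), θ < z.re ∧ z.re ≤ 6 ∧ |z.im| + 3 ≤ 2 * (|s.im| + 3) ∧ T < |z.im| := by
    intro z hz
    rw [mem_ball, dist_eq_norm] at hz
    have h1 := (Complex.abs_re_le_norm (z - c)).trans_lt hz
    have h2 := (Complex.abs_im_le_norm (z - c)).trans_lt hz
    simp only [sub_re, sub_im, hcre, hcim] at h1 h2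
    rw [abs_lt] at h1
    have h3 : |z.im| ≤ |z.im - s.im| + |s.im| := by
      have := abs_add_le (z.im - s.im) s.im
      simpa using this
    have h4 : |s.im| ≤ |z.im - s.im| + |z.im| := by
      have := abs_add_le (s.im - z.im) z.im
      rw [abs_sub_comm s.im z.im] at this
      simpa using this
    exact ⟨by linarith [h1.1], by linarith [h1.2], by linarith [abs_nonneg s.im], by linarith⟩
  have hc1 : c ≠ 1 := by
    intro h
    have := congrArg Complex.re h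
    rw [hcre, one_re] at this
    norm_num at this
  have hZc : 1 / 3 ≤ ‖Z1 c‖ := by
    rw [Z1_ne hc1, norm_mul]
    obtain ⟨hw0, hw1⟩ := SG.zeta_inv_bound c (by rw [hcre])
    rw [norm_inv] at hw1
    have hpos : 0 < ‖riemannZeta c‖ := norm_pos_iff.2 hw0
    have h3 : 1 / 3 ≤ ‖riemannZeta c‖ := by
      have := (inv_le_comm₀ hpos (by norm_num)).1 hw1
      linarith
    have h4 : 1 ≤ ‖c - 1‖ := by
      have h5 := Complex.abs_re_le_norm (c - 1)
      simp only [sub_re, hcre, one_re] at h5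
      norm_num at h5
      exact h5
    nlinarith
  have hB : ∀ z ∈ ball c (2 - θ), ‖Z1 z‖ ≤ Real.exp (K * L) * ‖Z1 c‖ := by
    intro z hz
    obtain ⟨h1, h2, h3, -⟩ := hball z hz
    have h4 := hgr z (by linarith) h2
    have hpos3 : (0 : ℝ) < |s.im| + 3 := by linarith
    have h5 : (|z.im| + 3) ^ A ≤ (2 * (|s.im| + 3)) ^ A :=
      Real.rpow_le_rpow (by positivity) h3 (by linarith)
    have h6 : (2 * (|s.im| + 3)) ^ A = 2 ^ A * Real.exp (A * L) := by
      rw [Real.mul_rpow (by norm_num) hpos3.le, hL, Real.rpow_def_of_pos hpos3, mul_comm A]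
    have h7 : 3 * C * 2 ^ A ≤ Real.exp (|Real.log (3 * C * 2 ^ A)| * L) := by
      have hpos : (0 : ℝ) < 3 * C * 2 ^ A := by positivity
      calc 3 * C * 2 ^ A = Real.exp (Real.log (3 * C * 2 ^ A)) := (Real.exp_log hpos).symm
        _ ≤ _ := Real.exp_le_exp.2 (by
          have h9 := le_abs_self (Real.log (3 * C * 2 ^ A))
          have h10 := abs_nonneg (Real.log (3 * C * 2 ^ A))
          nlinarith)
    calc ‖Z1 z‖ ≤ C * (|z.im| + 3) ^ A := h4
      _ ≤ C * (2 ^ A * Real.exp (A * L)) := by rw [← h6]; gcongr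
      _ = (3 * C * 2 ^ A) * Real.exp (A * L) * (1 / 3) := by ring
      _ ≤ Real.exp (|Real.log (3 * C * 2 ^ A)| * L) * Real.exp (A * L) * ‖Z1 c‖ := by
          gcongr
      _ = Real.exp (K * L) * ‖Z1 c‖ := by
          rw [← Real.exp_add]; congr 2; rw [hK]; ring
  have hfin := logDeriv_zero_free (g := Z1) (c := c) (r := 2 - θ) (r2 := 2 - σ₀) (B := K * L)
    (by linarith) (by linarith) (by linarith) (by positivity)
    (fun z _ => Z1_entire.analyticAt z)
    (fun z hz' => hz z (hball z hz').1 (hball z hz').2.2.2) hB (z := s)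
    (by
      rw [mem_closedBall, dist_eq_norm]
      have e : s - c = ((s.re - 2 : ℝ) : ℂ) := by
        apply Complex.ext <;> simp [hc]
      rw [e, Complex.norm_real, Real.norm_eq_abs, abs_le]
      constructor <;> linarith)
  refine hfin.trans (le_of_eq ?_)
  have e1 : (2 - θ : ℝ) - (2 - σ₀) = σ₀ - θ := by ring
  rw [e1]
  ring

/-- the properties of `A(s) = -ζ'/ζ(s) - 1/(s-1) + ∑_ρ n_ρ/(s-ρ)` which are used -/
structure IsAe (θ : ℝ) (Z : Finset ℂ) (n : ℂ → ℕ) (A : ℂ → ℂ) : Prop where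
  diff : DifferentiableOn ℂ A {s : ℂ | θ < s.re}
  eq : ∀ s : ℂ, 1 < s.re →
    A s = LSeries (fun n => (ArithmeticFunction.vonMangoldt n : ℂ)) s - 1 / (s - 1) +
      ∑ ρ ∈ Z, (n ρ : ℂ) / (s - ρ)
  bound : ∀ σ₀ : ℝ, θ < σ₀ → ∃ C : ℝ, 0 < C ∧ ∀ s : ℂ, σ₀ ≤ s.re → s.re ≤ 2 →
    ‖A s‖ ≤ C * Real.log (|s.im| + 3)

theorem Z1_ne_one {s : ℂ} (hs : 1 ≤ s.re) : Z1 s ≠ 0 := by
  by_cases h1 : s = 1
  · rw [h1, Z1_one]; exact one_ne_zero
  · rw [Z1_ne h1]
    exact mul_ne_zero (sub_ne_zero.2 h1) (riemannZeta_ne_zero_of_one_le_re hs)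

lemma logDeriv_prod' (Z : Finset ℂ) (n : ℂ → ℕ) {s : ℂ} (hs : s ∉ Z) :
    logDeriv (fun s => ∏ ρ ∈ Z, (s - ρ) ^ n ρ) s = ∑ ρ ∈ Z, (n ρ : ℂ) / (s - ρ) := by
  classical
  have hne : ∀ ρ ∈ Z, s - ρ ≠ 0 := fun ρ hρ => sub_ne_zero.2 fun h => hs (h ▸ hρ)
  have h := logDeriv_prod (s := Z) (f := fun ρ s => (s - ρ) ^ n ρ) (x := s)
    (fun ρ hρ => pow_ne_zero _ (hne ρ hρ)) (fun ρ hρ => by fun_prop)
  have e : (fun s : ℂ => ∏ ρ ∈ Z, (s - ρ) ^ n ρ) = fun s => ∏ ρ ∈ Z, (fun ρ s => (s - ρ) ^ n ρ) ρ s := rfl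
  rw [e]
  refine Eq.trans ?_ (h.trans ?_)
  · congr 1
  · refine Finset.sum_congr rfl fun ρ hρ => ?_
    have h1 : HasDerivAt (fun s : ℂ => (s - ρ) ^ n ρ) (n ρ * (s - ρ) ^ (n ρ - 1) * 1) s :=
      ((hasDerivAt_id s).sub_const ρ).pow (n ρ)
    rw [logDeriv_apply, h1.deriv]
    rcases Nat.eq_zero_or_pos (n ρ) with h0 | h0
    · rw [h0]; simp
    · have h3 : (s - ρ) ^ n ρ = (s - ρ) ^ (n ρ - 1) * (s - ρ) := by
        rw [← pow_succ]
        congr 1
        omega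
      rw [h3]
      have h4 := hne ρ hρ
      have h5 := pow_ne_zero (n ρ - 1) h4
      field_simp

theorem ze {θ T : ℝ} (hθ : 1 / 2 ≤ θ) (hθ1 : θ < 1)
    (hz : ∀ s : ℂ, θ < s.re → s.re < 1 → T < |s.im| → riemannZeta s ≠ 0) :
    ∃ (Z : Finset ℂ) (n : ℂ → ℕ) (A : ℂ → ℂ), IsAe θ Z n A ∧ ∀ ρ ∈ Z, 0 < ρ.re ∧ ρ.re < 1 := by
  classical
  have hfin := H353.zeros_finite (Set.Icc θ 1 ×ℂ Set.Icc (-|T|) |T|)
    (isCompact_Icc.reProdIm isCompact_Icc)
  set Z : Finset ℂ := hfin.toFinset with hZdef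
  have hZ : ∀ ρ, ρ ∈ Z ↔ Z1 ρ = 0 ∧ ρ ∈ (Set.Icc θ 1 ×ℂ Set.Icc (-|T|) |T|) := by
    intro ρ
    rw [hZdef, Set.Finite.mem_toFinset]
    rfl
  have hZre : ∀ ρ ∈ Z, θ ≤ ρ.re ∧ ρ.re < 1 ∧ |ρ.im| ≤ |T| := by
    intro ρ hρ
    obtain ⟨h1, h2⟩ := (hZ ρ).1 hρ
    rw [Complex.mem_reProdIm] at h2
    refine ⟨h2.1.1, ?_, abs_le.2 h2.2⟩
    by_contra h
    exact Z1_ne_one (not_lt.1 h) h1
  have hz1 : ∀ s : ℂ, θ < s.re → T < |s.im| → Z1 s ≠ 0 := by
    intro s hs hT h
    rcases lt_or_ge s.re 1 with h1 | h1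
    · have hs1 : s ≠ 1 := by rintro rfl; simp at h1
      rw [Z1_ne hs1] at h
      rcases mul_eq_zero.1 h with h3 | h3
      · exact hs1 (sub_eq_zero.1 h3)
      · exact hz s hs h1 hT h3
    · exact Z1_ne_one h1 h
  have hall : ∀ s : ℂ, θ < s.re → Z1 s = 0 → s ∈ Z := by
    intro s hs h
    rw [hZ]
    refine ⟨h, ?_⟩
    rw [Complex.mem_reProdIm]
    have h1 : s.re ≤ 1 := by
      by_contra h1
      exact Z1_ne_one (not_le.1 h1).le h
    have h2 : |s.im| ≤ |T| := by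
      by_contra h2
      exact hz1 s hs ((le_abs_self T).trans_lt (not_le.1 h2)) h
    exact ⟨⟨hs.le, h1⟩, abs_le.1 h2⟩
  obtain ⟨n, H, hH, hFH, hH0⟩ := fac Z Z1 Z1_entire (Z1_ne_one (by simp))
  have hHU : ∀ s : ℂ, θ < s.re → H s ≠ 0 := by
    intro s hs h
    exact hH0 s (hall s hs (by rw [hFH, h, mul_zero])) h
  have hlog : ∀ s : ℂ, θ < s.re → s ∉ Z →
      -(deriv H s / H s) = -(deriv Z1 s / Z1 s) + ∑ ρ ∈ Z, (n ρ : ℂ) / (s - ρ) := by
    intro s hs hsZ
    have h1 : logDeriv Z1 s = logDeriv (fun s => (∏ ρ ∈ Z, (s - ρ) ^ n ρ) * H s) s := by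
      congr 1
      funext s
      exact hFH s
    have hne : (∏ ρ ∈ Z, (s - ρ) ^ n ρ) ≠ 0 :=
      Finset.prod_ne_zero_iff.2 fun ρ hρ => pow_ne_zero _ (sub_ne_zero.2 fun h => hsZ (h ▸ hρ))
    rw [logDeriv_mul s hne (hHU s hs) (by fun_prop) (hH s), logDeriv_prod' Z n hsZ] at h1
    rw [logDeriv_apply, logDeriv_apply] at h1
    rw [h1]
    ring
  refine ⟨Z, n, fun s => -(deriv H s / H s), ⟨?_, ?_, ?_⟩, fun ρ hρ => ⟨by linarith [(hZre ρ hρ).1], (hZre ρ hρ).2.1⟩⟩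
  · intro s hs
    have h1 : DifferentiableAt ℂ (deriv H) s := (hH.analyticAt s).deriv.differentiableAt
    exact ((h1.div (hH s) (hHU s hs)).neg).differentiableWithinAt
  · intro s hs
    have hsZ : s ∉ Z := fun h => by have := (hZre s h).2.1; linarith
    show -(deriv H s / H s) = _
    rw [hlog s (by linarith) hsZ]
    congr 1
    have hs1 : s ≠ 1 := by rintro rfl; simp at hs
    have hz0 : riemannZeta s ≠ 0 := riemannZeta_ne_zero_of_one_le_re hs.le
    have hd : HasDerivAt (fun w : ℂ => (w - 1) * riemannZeta w)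
        (1 * riemannZeta s + (s - 1) * deriv riemannZeta s) s :=
      ((hasDerivAt_id s).sub_const 1).mul (differentiableAt_riemannZeta hs1).hasDerivAt
    have hd2 : HasDerivAt Z1 (1 * riemannZeta s + (s - 1) * deriv riemannZeta s) s := by
      refine hd.congr_of_eventuallyEq ?_
      filter_upwards [isOpen_ne.mem_nhds hs1] with z hz
      exact Z1_ne hz
    have hs2 : s - 1 ≠ 0 := sub_ne_zero.2 hs1
    have h3 := ArithmeticFunction.LSeries_vonMangoldt_eq_deriv_riemannZeta_div hs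
    rw [hd2.deriv, Z1_ne hs1, h3]
    field_simp
    ring
  · intro σ₀ hσ
    rcases lt_or_ge 2 σ₀ with h2 | h2
    · exact ⟨1, one_pos, fun s h3 h4 => absurd (h3.trans h4) (not_le.2 h2)⟩
    obtain ⟨K, hK, hb⟩ := high hθ hθ1 hz1 hσ h2
    -- the compact part
    have hcomp : IsCompact ((Set.Icc σ₀ 2) ×ℂ (Set.Icc (-(|T| + 2)) (|T| + 2))) :=
      isCompact_Icc.reProdIm isCompact_Icc
    have hcont : ContinuousOn (fun s => -(deriv H s / H s))
        ((Set.Icc σ₀ 2) ×ℂ (Set.Icc (-(|T| + 2)) (|T| + 2))) := by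
      intro s hs
      rw [Complex.mem_reProdIm] at hs
      have h1 : DifferentiableAt ℂ (deriv H) s := (hH.analyticAt s).deriv.differentiableAt
      exact ((h1.div (hH s) (hHU s (by linarith [hs.1.1]))).neg).continuousAt.continuousWithinAt
    obtain ⟨C1, hC1⟩ := hcomp.exists_bound_of_continuousOn hcont
    refine ⟨K + (∑ ρ ∈ Z, (n ρ : ℝ)) + |C1|, by positivity, fun s hs1 hs2 => ?_⟩
    have hL1 : 1 ≤ Real.log (|s.im| + 3) := by
      rw [Real.le_log_iff_exp_le (by linarith [abs_nonneg s.im])]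
      have := Real.exp_one_lt_d9
      linarith [abs_nonneg s.im]
    have hS0 : 0 ≤ ∑ ρ ∈ Z, (n ρ : ℝ) := Finset.sum_nonneg fun ρ _ => Nat.cast_nonneg _
    rcases le_or_gt |s.im| (|T| + 2) with h | h
    · have h3 := hC1 s (by
        rw [Complex.mem_reProdIm]
        exact ⟨⟨hs1, hs2⟩, abs_le.1 h⟩)
      show ‖-(deriv H s / H s)‖ ≤ _
      have h4 := le_abs_self C1
      have h5 := abs_nonneg C1
      nlinarith
    · have hsZ : s ∉ Z := fun h' => by have := (hZre s h').2.2; linarith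
      show ‖-(deriv H s / H s)‖ ≤ _
      rw [hlog s (by linarith) hsZ]
      have h3 := hb s hs1 hs2 (by linarith [le_abs_self T])
      have h4 : ‖∑ ρ ∈ Z, (n ρ : ℂ) / (s - ρ)‖ ≤ ∑ ρ ∈ Z, (n ρ : ℝ) := by
        refine norm_sum_le_of_le _ fun ρ hρ => ?_
        rw [norm_div, Complex.norm_natCast]
        have h5 : 1 ≤ ‖s - ρ‖ := by
          have h6 := Complex.abs_im_le_norm (s - ρ)
          rw [sub_im] at h6
          have h7 : |s.im| ≤ |s.im - ρ.im| + |ρ.im| := by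
            have := abs_add_le (s.im - ρ.im) ρ.im
            simpa using this
          linarith [(hZre ρ hρ).2.2]
        exact div_le_self (Nat.cast_nonneg _) h5
      calc ‖-(deriv Z1 s / Z1 s) + ∑ ρ ∈ Z, (n ρ : ℂ) / (s - ρ)‖ ≤
            K * Real.log (|s.im| + 3) + ∑ ρ ∈ Z, (n ρ : ℝ) := by
            refine (norm_add_le _ _).trans (add_le_add ?_ h4)
            rw [norm_neg]
            exact h3
        _ ≤ _ := by
            have h5 := abs_nonneg C1
            nlinarith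

end Pool.Agent.R303.CZ
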