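import Pool.Agent.R303.CZ.B
import Pool.Agent.W475.MO.GI

/-!
# The Gaussian explicit formula with finitely many exceptional zeros
-/

set_option autoImplicit false

namespace Pool.Agent.R303.CZ

open Complex MeasureTheory Filter Topology Set Pool.Agent.W76.MO
open Pool.Agent.W475.MO (G norm_G sum_side int_side log_le_exp bound_G e1 integrable_pole)

/-- regularity to the right of `θ` -/
structure Reg (θ : ℝ) (A : ℂ → ℂ) : Prop where
  diff : DifferentiableOn ℂ A {s : ℂ | θ < s.re}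
  bound : ∀ σ₀ : ℝ, θ < σ₀ → ∃ C : ℝ, 0 < C ∧ ∀ s : ℂ, σ₀ ≤ s.re → s.re ≤ 2 →
    ‖A s‖ ≤ C * Real.log (|s.im| + 3)

lemma hyp {θ : ℝ} {A : ℂ → ℂ} (hθ : 0 < θ) (hA : Reg θ A) {σ₀ η : ℝ} (L : ℝ) (h1 : θ < σ₀) (h2 : σ₀ < 1)
    (hη : 0 < η) : ∃ K : ℝ,
    (∀ z : ℂ, z.im ∈ Set.uIcc (-σ₀) (-2) →
      DifferentiableAt ℂ (fun z => A (I * z) * G η L (I * z)) z) ∧
    (∀ z : ℂ, z.im ∈ Set.uIcc (-σ₀) (-2) →
      ‖(fun z => A (I * z) * G η L (I * z)) z‖ ≤ K * Real.exp (-(η ^ 2 / 4) * z.re ^ 2)) := by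
  obtain ⟨C, hC, hb⟩ := hA.bound σ₀ h1
  have hab : ∀ z : ℂ, z.im ∈ Set.uIcc (-σ₀) (-2) → σ₀ ≤ (I * z).re ∧ (I * z).re ≤ 2 := by
    intro z hz
    rw [Set.uIcc_of_ge (by linarith)] at hz
    have h3 : (I * z).re = -z.im := by simp
    rw [h3]
    constructor
    · linarith [hz.2]
    · linarith [hz.1]
  refine ⟨C * ((3 + 1 / η ^ 2) * Real.exp (2 * η ^ 2 + 2 * |L|)), ?_, ?_⟩
  · intro z hz
    obtain ⟨h3, h4⟩ := hab z hz
    have hd : DifferentiableAt ℂ A (I * z) := by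
      apply (hA.diff (I * z) (by
        change θ < (I * z).re
        linarith)).differentiableAt
      exact (isOpen_lt continuous_const Complex.continuous_re).mem_nhds (by
        change θ < (I * z).re
        linarith)
    have hI : DifferentiableAt ℂ (fun z : ℂ => I * z) z := by fun_prop
    apply DifferentiableAt.mul
    · exact DifferentiableAt.comp z hd hI
    · unfold G
      fun_prop
  · intro z hz
    obtain ⟨h3, h4⟩ := hab z hz
    have him : (I * z).im = z.re := by simp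
    have h5 := hb (I * z) h3 h4
    have h6 := bound_G (η := η) L (I * z) (by linarith) h4
    rw [him] at h5 h6
    have h7 := log_le_exp hη z.re
    simp only [norm_mul]
    calc ‖A (I * z)‖ * ‖G η L (I * z)‖ ≤
        (C * ((3 + 1 / η ^ 2) * Real.exp (η ^ 2 / 4 * z.re ^ 2))) *
          (Real.exp (2 * η ^ 2 + 2 * |L|) * Real.exp (-(η ^ 2 / 2) * z.re ^ 2)) := by
          apply mul_le_mul _ h6 (norm_nonneg _) (by positivity)
          exact h5.trans (mul_le_mul_of_nonneg_left h7 hC.le)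
      _ = C * ((3 + 1 / η ^ 2) * Real.exp (2 * η ^ 2 + 2 * |L|)) *
          (Real.exp (η ^ 2 / 4 * z.re ^ 2) * Real.exp (-(η ^ 2 / 2) * z.re ^ 2)) := by ring
      _ = _ := by
          rw [← Real.exp_add]
          congr 2
          ring

lemma shift {θ : ℝ} {A : ℂ → ℂ} (hθ : 0 < θ) (hA : Reg θ A) {σ₀ η : ℝ} (L : ℝ) (h1 : θ < σ₀) (h2 : σ₀ < 1)
    (hη : 0 < η) :
    ∫ t : ℝ, A ((σ₀ : ℂ) + t * I) * G η L ((σ₀ : ℂ) + t * I) =
      ∫ t : ℝ, A (((2 : ℝ) : ℂ) + t * I) * G η L (((2 : ℝ) : ℂ) + t * I) := by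
  obtain ⟨K, ha, hb⟩ := hyp hθ hA L h1 h2 hη
  have key := Pool.Agent.Helper242.KK.shift_line (δ := η ^ 2 / 4) (by positivity) ha hb
  simp only [e1] at key
  exact key

lemma integrable_two {θ : ℝ} {A : ℂ → ℂ} (hθ : 0 < θ) (hA : Reg θ A) {σ₀ η : ℝ} (L : ℝ) (h1 : θ < σ₀)
    (h2 : σ₀ < 1) (hη : 0 < η) :
    Integrable (fun t : ℝ => A (((2 : ℝ) : ℂ) + t * I) * G η L (((2 : ℝ) : ℂ) + t * I)) := by
  obtain ⟨K, ha, hb⟩ := hyp hθ hA L h1 h2 hη
  have key := Pool.Agent.Helper242.KK.shift_line_integrable (δ := η ^ 2 / 4) (by positivity)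
    ha hb Set.right_mem_uIcc
  simp only [e1] at key
  exact key

/-- the contribution of the exceptional zeros -/
noncomputable def Ex (Z : Finset ℂ) (n : ℂ → ℕ) (η y : ℝ) : ℂ :=
  ((η / Real.sqrt (2 * Real.pi) : ℝ) : ℂ) *
    ∫ t : ℝ, (∑ ρ ∈ Z, (n ρ : ℂ) / ((((2 : ℝ) : ℂ) + t * I) - ρ)) *
      G η (Real.log y) (((2 : ℝ) : ℂ) + t * I)

/-- the sum over the exceptional zeros is regular to the right of them -/
lemma reg_Q (Z : Finset ℂ) (n : ℂ → ℕ) {β : ℝ} (hβ : ∀ ρ ∈ Z, ρ.re ≤ β) :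
    Reg β (fun s => ∑ ρ ∈ Z, (n ρ : ℂ) / (s - ρ)) := by
  constructor
  · intro s hs
    have hs' : β < s.re := hs
    have h1 : DifferentiableAt ℂ (fun s => ∑ ρ ∈ Z, (n ρ : ℂ) / (s - ρ)) s := by
      refine DifferentiableAt.fun_sum fun ρ hρ => ?_
      refine DifferentiableAt.div (by fun_prop) (by fun_prop) ?_
      intro h
      have h3 : s = ρ := sub_eq_zero.1 h
      have := hβ ρ hρ
      rw [← h3] at this
      linarith
    exact h1.differentiableWithinAt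
  · intro σ₀ hσ
    have hd : 0 < σ₀ - β := by linarith
    refine ⟨(∑ ρ ∈ Z, (n ρ : ℝ)) / (σ₀ - β) + 1, by positivity, fun s hs1 hs2 => ?_⟩
    have hL1 : 1 ≤ Real.log (|s.im| + 3) := by
      rw [Real.le_log_iff_exp_le (by linarith [abs_nonneg s.im])]
      have := Real.exp_one_lt_d9
      linarith [abs_nonneg s.im]
    have h4 : ‖∑ ρ ∈ Z, (n ρ : ℂ) / (s - ρ)‖ ≤ (∑ ρ ∈ Z, (n ρ : ℝ)) / (σ₀ - β) := by
      rw [Finset.sum_div]
      refine norm_sum_le_of_le _ fun ρ hρ => ?_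
      rw [norm_div, Complex.norm_natCast]
      have h5 : σ₀ - β ≤ ‖s - ρ‖ := by
        have h6 := (le_abs_self _).trans (Complex.abs_re_le_norm (s - ρ))
        rw [sub_re] at h6
        linarith [hβ ρ hρ]
      exact div_le_div_of_nonneg_left (Nat.cast_nonneg _) hd h5
    have h5 : 0 ≤ (∑ ρ ∈ Z, (n ρ : ℝ)) / (σ₀ - β) := by positivity
    nlinarith

/-- the explicit formula -/
theorem gi {θ : ℝ} (hθ : 0 < θ) {Z : Finset ℂ} {n : ℂ → ℕ} {A : ℂ → ℂ} (hA : IsAe θ Z n A)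
    (hZ : ∀ ρ ∈ Z, ρ.re < 1) (σ₀ η y : ℝ) (h1 : θ < σ₀) (h2 : σ₀ < 1) (hη : 0 < η) :
    ((DG η y - MG η y : ℝ) : ℂ) + Ex Z n η y =
      ((η / Real.sqrt (2 * Real.pi) : ℝ) : ℂ) * ∫ t : ℝ, A ((σ₀ : ℂ) + t * Complex.I) *
        Complex.exp ((η : ℂ) ^ 2 / 2 * ((σ₀ : ℂ) + t * Complex.I) ^ 2 +
          ((σ₀ : ℂ) + t * Complex.I) * Real.log y) := by
  obtain ⟨β, hβ1, hβ⟩ : ∃ β : ℝ, (0 < β ∧ β < 1) ∧ ∀ ρ ∈ Z, ρ.re ≤ β := by
    rcases Z.eq_empty_or_nonempty with h | h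
    · exact ⟨1 / 2, ⟨by norm_num, by norm_num⟩, by rw [h]; simp⟩
    · obtain ⟨ρ, hρ, hm⟩ := Z.exists_max_image (fun ρ => ρ.re) h
      refine ⟨max ρ.re (1 / 2), ⟨lt_max_of_lt_right (by norm_num), max_lt (hZ ρ hρ) (by norm_num)⟩,
        fun ρ' h' => (hm ρ' h').trans (le_max_left _ _)⟩
  have hR : Reg θ A := ⟨hA.diff, hA.bound⟩
  have hQ := reg_Q Z n hβ
  have h3 := shift hθ hR (Real.log y) h1 h2 hη
  have h4 := sum_side y hη
  have h5 := int_side y hη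
  have hQi := integrable_two hβ1.1 hQ (Real.log y) (σ₀ := (β + 1) / 2) (by linarith) (by linarith) hη
  have hAi := integrable_two hθ hR (Real.log y) h1 h2 hη
  have h6 : ∀ t : ℝ, LSeries (fun n => (ArithmeticFunction.vonMangoldt n : ℂ))
      (((2 : ℝ) : ℂ) + t * I) * G η (Real.log y) (((2 : ℝ) : ℂ) + t * I) =
      (A (((2 : ℝ) : ℂ) + t * I) * G η (Real.log y) (((2 : ℝ) : ℂ) + t * I) -
        (∑ ρ ∈ Z, (n ρ : ℂ) / ((((2 : ℝ) : ℂ) + t * I) - ρ)) *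
          G η (Real.log y) (((2 : ℝ) : ℂ) + t * I)) +
      1 / ((((2 : ℝ) : ℂ) + t * I) - 1) * G η (Real.log y) (((2 : ℝ) : ℂ) + t * I) := by
    intro t
    rw [hA.eq _ (by simp)]
    ring
  simp_rw [h6] at h4
  have hAQ : Integrable (fun t : ℝ => A (((2 : ℝ) : ℂ) + t * I) * G η (Real.log y) (((2 : ℝ) : ℂ) + t * I) -
      (∑ ρ ∈ Z, (n ρ : ℂ) / ((((2 : ℝ) : ℂ) + t * I) - ρ)) *
        G η (Real.log y) (((2 : ℝ) : ℂ) + t * I)) := hAi.sub hQi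
  rw [integral_add hAQ (integrable_pole _ hη), integral_sub hAi hQi, mul_add, ← h5,
    ← h3, mul_sub] at h4
  rw [Complex.ofReal_sub, h4, add_sub_cancel_right]
  unfold Ex
  rw [sub_add_cancel]
  rfl

/-- a Gaussian integral with a weight -/
lemma gauss_weight {a : ℝ} (ha : 0 < a) (ha1 : a ≤ 1) : ∃ C : ℝ, 0 < C ∧ ∀ η : ℝ, 0 < η → η ≤ 1 →
    Integrable (fun t : ℝ => (1 + |t|)⁻¹ * Real.exp (-(η ^ 2 / 2) * t ^ 2)) ∧
    ∫ t : ℝ, (1 + |t|)⁻¹ * Real.exp (-(η ^ 2 / 2) * t ^ 2) ≤ C * (1 / η) ^ a := by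
  have hi : Integrable (fun t : ℝ => (1 + ‖t‖) ^ (-(1 + a))) :=
    integrable_one_add_norm (by simp; linarith)
  set I1 : ℝ := ∫ t : ℝ, (1 + ‖t‖) ^ (-(1 + a)) with hI1
  have hI0 : 0 ≤ I1 := integral_nonneg fun t => by positivity
  refine ⟨2 * I1 + Real.sqrt (2 * Real.pi), by positivity, fun η hη hη1 => ?_⟩
  have hg : Integrable (fun t : ℝ => Real.exp (-(η ^ 2 / 2) * t ^ 2)) :=
    integrable_exp_neg_mul_sq (by positivity)
  have hdom : Integrable (fun t : ℝ => 2 * (1 / η) ^ a * (1 + ‖t‖) ^ (-(1 + a)) +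
      η * Real.exp (-(η ^ 2 / 2) * t ^ 2)) := (hi.const_mul _).add (hg.const_mul _)
  have hη' : 1 ≤ 1 / η := by rw [le_div_iff₀ hη]; linarith
  have hpt : ∀ t : ℝ, (1 + |t|)⁻¹ * Real.exp (-(η ^ 2 / 2) * t ^ 2) ≤
      2 * (1 / η) ^ a * (1 + ‖t‖) ^ (-(1 + a)) + η * Real.exp (-(η ^ 2 / 2) * t ^ 2) := by
    intro t
    have hE := Real.exp_pos (-(η ^ 2 / 2) * t ^ 2)
    have hE1 : Real.exp (-(η ^ 2 / 2) * t ^ 2) ≤ 1 := by
      rw [Real.exp_le_one_iff]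
      have := sq_nonneg t
      nlinarith [sq_nonneg η, mul_nonneg (sq_nonneg η) (sq_nonneg t)]
    have h0 : 0 < 1 + |t| := by positivity
    rw [Real.norm_eq_abs]
    have hpos1 : 0 ≤ 2 * (1 / η) ^ a * (1 + |t|) ^ (-(1 + a)) := by positivity
    have hpos2 : 0 ≤ η * Real.exp (-(η ^ 2 / 2) * t ^ 2) := by positivity
    rcases le_total (|t|) (1 / η) with h | h
    · have h1 : (1 + |t|) ^ a ≤ 2 * (1 / η) ^ a := by
        calc (1 + |t|) ^ a ≤ (2 * (1 / η)) ^ a := Real.rpow_le_rpow h0.le (by linarith) ha.le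
          _ = 2 ^ a * (1 / η) ^ a := Real.mul_rpow (by norm_num) (by positivity)
          _ ≤ 2 ^ (1:ℝ) * (1 / η) ^ a := by
              gcongr
              norm_num
          _ = _ := by rw [Real.rpow_one]
      have h2 : (1 + |t|)⁻¹ = (1 + |t|) ^ a * (1 + |t|) ^ (-(1 + a)) := by
        rw [← Real.rpow_add h0, ← Real.rpow_neg_one]
        congr 1
        ring
      have h3 : (1 + |t|)⁻¹ * Real.exp (-(η ^ 2 / 2) * t ^ 2) ≤ 2 * (1 / η) ^ a * (1 + |t|) ^ (-(1 + a)) := by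
        calc (1 + |t|)⁻¹ * Real.exp (-(η ^ 2 / 2) * t ^ 2) ≤ (1 + |t|)⁻¹ * 1 := by gcongr
          _ = (1 + |t|) ^ a * (1 + |t|) ^ (-(1 + a)) := by rw [mul_one, h2]
          _ ≤ _ := mul_le_mul_of_nonneg_right h1 (by positivity)
      linarith
    · have h1 : (1 + |t|)⁻¹ ≤ η := by
        rw [inv_le_comm₀ h0 hη, ← one_div]
        linarith
      have h3 := mul_le_mul_of_nonneg_right h1 hE.le
      linarith
  have hint : Integrable (fun t : ℝ => (1 + |t|)⁻¹ * Real.exp (-(η ^ 2 / 2) * t ^ 2)) := by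
    refine hdom.mono' (by
      refine Measurable.aestronglyMeasurable ?_
      fun_prop) (Eventually.of_forall fun t => ?_)
    rw [Real.norm_of_nonneg (by positivity)]
    exact hpt t
  refine ⟨hint, ?_⟩
  have h1 := integral_mono hint hdom hpt
  refine h1.trans ?_
  rw [integral_add (hi.const_mul _) (hg.const_mul _), integral_const_mul, integral_const_mul,
    integral_gaussian, ← hI1]
  have h2 : η * Real.sqrt (Real.pi / (η ^ 2 / 2)) = Real.sqrt (2 * Real.pi) := by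
    have : Real.pi / (η ^ 2 / 2) = (2 * Real.pi) / η ^ 2 := by field_simp
    rw [this, Real.sqrt_div (by positivity), Real.sqrt_sq hη.le]
    field_simp
  rw [h2]
  have h3 : 1 ≤ (1 / η) ^ a := Real.one_le_rpow hη' ha.le
  have h4 : 0 ≤ Real.sqrt (2 * Real.pi) := Real.sqrt_nonneg _
  nlinarith

/-- the exceptional zeros do not matter -/
theorem ex_small (Z : Finset ℂ) (n : ℂ → ℕ) (hZ : ∀ ρ ∈ Z, ρ.re < 1) (c : ℝ) (hc : 0 < c) :
    ∃ X₀ : ℝ, 2 ≤ X₀ ∧ ∀ X η y : ℝ, X₀ ≤ X → 1 / X ≤ η → η ≤ 1 → X ≤ y → y ≤ 2 * X →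
      ‖Ex Z n η y‖ ≤ c * (η * X) := by
  obtain ⟨β, hβ1, hβ⟩ : ∃ β : ℝ, (0 < β ∧ β < 1) ∧ ∀ ρ ∈ Z, ρ.re ≤ β := by
    rcases Z.eq_empty_or_nonempty with h | h
    · exact ⟨1 / 2, ⟨by norm_num, by norm_num⟩, by rw [h]; simp⟩
    · obtain ⟨ρ, hρ, hm⟩ := Z.exists_max_image (fun ρ => ρ.re) h
      refine ⟨max ρ.re (1 / 2), ⟨lt_max_of_lt_right (by norm_num), max_lt (hZ ρ hρ) (by norm_num)⟩,
        fun ρ' h' => (hm ρ' h').trans (le_max_left _ _)⟩
  set σ : ℝ := (β + 1) / 2 with hσ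
  have hσβ : β < σ := by rw [hσ]; linarith
  have hσ1 : σ < 1 := by rw [hσ]; linarith
  have hσ0 : 0 < σ := by linarith
  set a : ℝ := (1 - σ) / 2 with ha
  have ha0 : 0 < a := by rw [ha]; linarith
  obtain ⟨C, hC, hw⟩ := gauss_weight ha0 (by rw [ha]; linarith)
  -- the bound on the line
  set B : ℝ := ∑ ρ ∈ Z, (n ρ : ℝ) * ((1 + |ρ.im|) / (σ - β) + 1) * 2 with hB
  have hB0 : 0 ≤ B := Finset.sum_nonneg fun ρ _ => by
    have : 0 < σ - β := by linarith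
    positivity
  have hline : ∀ t : ℝ, ‖∑ ρ ∈ Z, (n ρ : ℂ) / (((σ : ℂ) + t * I) - ρ)‖ ≤ B * (1 + |t|)⁻¹ := by
    intro t
    rw [hB, Finset.sum_mul]
    refine norm_sum_le_of_le _ fun ρ hρ => ?_
    rw [norm_div, Complex.norm_natCast]
    have hd : 0 < σ - β := by linarith
    have h1 : σ - β ≤ ‖((σ : ℂ) + t * I) - ρ‖ := by
      have h6 := (le_abs_self _).trans (Complex.abs_re_le_norm (((σ : ℂ) + t * I) - ρ))
      simp at h6
      linarith [hβ ρ hρ]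
    have h2 : |t| - |ρ.im| ≤ ‖((σ : ℂ) + t * I) - ρ‖ := by
      have h6 := Complex.abs_im_le_norm (((σ : ℂ) + t * I) - ρ)
      simp at h6
      have h7 : |t| ≤ |t - ρ.im| + |ρ.im| := by
        have := abs_add_le (t - ρ.im) ρ.im
        simpa using this
      linarith
    set N : ℝ := ‖((σ : ℂ) + t * I) - ρ‖ with hN
    have hN0 : 0 < N := by linarith
    -- `1 + |t| ≤ N * ((1 + |γ|)/(σ-β) + 1)`
    have h3 : 1 + |t| ≤ N * ((1 + |ρ.im|) / (σ - β) + 1) := by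
      have h4 : (1 + |ρ.im|) ≤ N * ((1 + |ρ.im|) / (σ - β)) := by
        rw [mul_div_assoc', le_div_iff₀ hd]
        have : 0 ≤ 1 + |ρ.im| := by positivity
        nlinarith
      linarith
    rw [div_le_iff₀ hN0]
    have h5 : 0 ≤ (n ρ : ℝ) := Nat.cast_nonneg _
    have h6 : 0 < 1 + |t| := by positivity
    have h7 : (1 : ℝ) ≤ ((1 + |ρ.im|) / (σ - β) + 1) * 2 * (1 + |t|)⁻¹ * N := by
      rw [mul_assoc, mul_comm ((1 + |t|)⁻¹) N, ← mul_assoc, ← div_eq_mul_inv, le_div_iff₀ h6, one_mul]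
      nlinarith
    calc (n ρ : ℝ) = (n ρ : ℝ) * 1 := (mul_one _).symm
      _ ≤ (n ρ : ℝ) * (((1 + |ρ.im|) / (σ - β) + 1) * 2 * (1 + |t|)⁻¹ * N) :=
          mul_le_mul_of_nonneg_left h7 h5
      _ = _ := by ring
  -- the threshold
  set K : ℝ := B * (Real.exp (1 / 2) * 2) * C with hK
  have hK0 : 0 ≤ K := by positivity
  have hlim : Tendsto (fun X : ℝ => X ^ a) atTop atTop := tendsto_rpow_atTop ha0
  obtain ⟨X₁, hX₁⟩ := eventually_atTop.1 (hlim.eventually_ge_atTop (K / c))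
  refine ⟨max X₁ 2, le_max_right _ _, fun X η y hX hη hη1 hy1 hy2 => ?_⟩
  have hX2 : 2 ≤ X := (le_max_right _ _).trans hX
  have hX0 : 0 < X := by linarith
  have hη0 : 0 < η := lt_of_lt_of_le (by positivity) hη
  have hy0 : 0 < y := by linarith
  obtain ⟨hi, hI⟩ := hw η hη0 hη1
  have hsh := shift hβ1.1 (reg_Q Z n hβ) (Real.log y) hσβ hσ1 hη0
  have h1 : ‖∫ t : ℝ, (∑ ρ ∈ Z, (n ρ : ℂ) / (((σ : ℂ) + t * I) - ρ)) *
      G η (Real.log y) ((σ : ℂ) + t * I)‖ ≤ B * (Real.exp (1 / 2) * y ^ σ) * (C * (1 / η) ^ a) := by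
    have h2 : ∀ t : ℝ, ‖(∑ ρ ∈ Z, (n ρ : ℂ) / (((σ : ℂ) + t * I) - ρ)) *
        G η (Real.log y) ((σ : ℂ) + t * I)‖ ≤
        B * (Real.exp (1 / 2) * y ^ σ) * ((1 + |t|)⁻¹ * Real.exp (-(η ^ 2 / 2) * t ^ 2)) := by
      intro t
      rw [norm_mul, norm_G]
      have h3 : Real.exp (η ^ 2 / 2 * σ ^ 2 + σ * Real.log y) ≤ Real.exp (1 / 2) * y ^ σ := by
        rw [Real.rpow_def_of_pos hy0, ← Real.exp_add]
        refine Real.exp_le_exp.2 ?_
        have h4 : η ^ 2 ≤ 1 := by nlinarith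
        have h5 : σ ^ 2 ≤ 1 := by nlinarith
        have h6 : 0 ≤ η ^ 2 := sq_nonneg _
        have h7 : 0 ≤ σ ^ 2 := sq_nonneg _
        nlinarith
      calc _ ≤ (B * (1 + |t|)⁻¹) * ((Real.exp (1 / 2) * y ^ σ) * Real.exp (-(η ^ 2 / 2) * t ^ 2)) := by
            refine mul_le_mul (hline t) ?_ (by positivity) (by positivity)
            exact mul_le_mul_of_nonneg_right h3 (Real.exp_pos _).le
        _ = _ := by ring
    refine (norm_integral_le_of_norm_le (hi.const_mul _) (Eventually.of_forall h2)).trans ?_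
    rw [integral_const_mul]
    exact mul_le_mul_of_nonneg_left hI (by positivity)
  unfold Ex
  have hpi : 1 ≤ Real.sqrt (2 * Real.pi) := by
    rw [Real.one_le_sqrt]
    have := Real.pi_gt_three
    linarith
  have e2 : (∫ t : ℝ, (∑ ρ ∈ Z, (n ρ : ℂ) / ((((2 : ℝ) : ℂ) + t * I) - ρ)) *
      G η (Real.log y) (((2 : ℝ) : ℂ) + t * I)) =
      ∫ t : ℝ, (∑ ρ ∈ Z, (n ρ : ℂ) / (((σ : ℂ) + t * I) - ρ)) *
      G η (Real.log y) ((σ : ℂ) + t * I) := hsh.symm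
  rw [e2, norm_mul, Complex.norm_real, Real.norm_of_nonneg (by positivity)]
  have h8 : η / Real.sqrt (2 * Real.pi) ≤ η := div_le_self hη0.le hpi
  have h9 : y ^ σ ≤ 2 * X ^ σ := by
    calc y ^ σ ≤ (2 * X) ^ σ := Real.rpow_le_rpow hy0.le hy2 hσ0.le
      _ = 2 ^ σ * X ^ σ := Real.mul_rpow (by norm_num) hX0.le
      _ ≤ 2 ^ (1:ℝ) * X ^ σ := by
          gcongr
          norm_num
      _ = _ := by rw [Real.rpow_one]
  have h10 : (1 / η) ^ a ≤ X ^ a := by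
    refine Real.rpow_le_rpow (by positivity) ?_ ha0.le
    rw [div_le_iff₀ hη0]
    rw [div_le_iff₀ hX0] at hη
    linarith
  have h11 : K ≤ c * X ^ a := by
    have := hX₁ X ((le_max_left _ _).trans hX)
    rw [div_le_iff₀ hc] at this
    linarith
  have h12 : X ^ σ * X ^ a * X ^ a = X := by
    rw [← Real.rpow_add hX0, ← Real.rpow_add hX0]
    have : σ + a + a = 1 := by rw [ha]; ring
    rw [this, Real.rpow_one]
  calc η / Real.sqrt (2 * Real.pi) * ‖∫ t : ℝ, (∑ ρ ∈ Z, (n ρ : ℂ) / (((σ : ℂ) + t * I) - ρ)) *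
        G η (Real.log y) ((σ : ℂ) + t * I)‖ ≤
        η * (B * (Real.exp (1 / 2) * (2 * X ^ σ)) * (C * X ^ a)) := by
        refine mul_le_mul h8 (h1.trans ?_) (norm_nonneg _) hη0.le
        gcongr
    _ = η * (K * (X ^ σ * X ^ a)) := by rw [hK]; ring
    _ ≤ η * ((c * X ^ a) * (X ^ σ * X ^ a)) := by gcongr
    _ = c * (η * (X ^ σ * X ^ a * X ^ a)) := by ring
    _ = _ := by rw [h12]

/-- the number of well spaced points where the Gaussian sum is far from its main term -/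
theorem badCount {θ : ℝ} (hθ : 0 < θ) {Z : Finset ℂ} {n : ℂ → ℕ} {A : ℂ → ℂ} (hA : IsAe θ Z n A)
    (hZ : ∀ ρ ∈ Z, ρ.re < 1) (σ₀ c : ℝ) (h1 : θ < σ₀) (h2 : σ₀ < 1) (hc : 0 < c) :
    ∃ C X₀ : ℝ, 0 < C ∧ 2 ≤ X₀ ∧ ∀ X η : ℝ, X₀ ≤ X → 1 / X ≤ η → η ≤ 1 → ∀ Y : Finset ℝ,
      (∀ y ∈ Y, X ≤ y ∧ y ≤ 2 * X) → (∀ y ∈ Y, ∀ y' ∈ Y, y ≠ y' → η * X ≤ |y - y'|) →
      (∀ y ∈ Y, c * (η * X) ≤ |DG η y - MG η y|) →
        (Y.card : ℝ) ≤ C * (Real.log X) ^ 2 * X ^ (2 * σ₀ - 2) / η ^ 2 := by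
  obtain ⟨CA, hCA, hb⟩ := hA.bound σ₀ h1
  have hsc : Continuous (fun t : ℝ => (σ₀ : ℂ) + t * I) := by fun_prop
  have hAc : Continuous (fun t : ℝ => A ((σ₀ : ℂ) + t * I)) := by
    refine hA.diff.continuousOn.comp_continuous hsc fun t => ?_
    show θ < ((σ₀ : ℂ) + t * I).re
    simpa using h1
  have hAb : ∀ t : ℝ, ‖A ((σ₀ : ℂ) + t * I)‖ ≤ CA * Real.log (|t| + 3) := by
    intro t
    have := hb ((σ₀ : ℂ) + t * I) (by simp) (by simp; linarith)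
    simpa using this
  obtain ⟨C, hC, hcount⟩ := count (by linarith) h2 hAc hCA hAb (c := c / 2) (by positivity)
  obtain ⟨X₀, hX₀, hex⟩ := ex_small Z n hZ (c / 2) (by positivity)
  refine ⟨C, X₀, hC, hX₀, fun X η hX hη hη1 Y hY hsep hD => ?_⟩
  have hX2 : 2 ≤ X := hX₀.trans hX
  have hη0 : 0 < η := lt_of_lt_of_le (by positivity) hη
  refine hcount X η hX2 hη hη1 Y (fun y => (DG η y - MG η y) + (Ex Z n η y).re) hY hsep
    (fun y hy => ?_) (fun y hy => ?_)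
  · have h3 := hD y hy
    have h4 := (Complex.abs_re_le_norm (Ex Z n η y)).trans (hex X η y hX hη hη1 (hY y hy).1 (hY y hy).2)
    have h5 : |DG η y - MG η y| ≤ |(DG η y - MG η y) + (Ex Z n η y).re| + |(Ex Z n η y).re| := by
      have := abs_add_le ((DG η y - MG η y) + (Ex Z n η y).re) (-(Ex Z n η y).re)
      rw [abs_neg] at this
      simpa using this
    linarith
  · have h3 := congrArg Complex.re (gi hθ hA hZ σ₀ η y h1 h2 hη0)
    rw [Complex.add_re, Complex.ofReal_re] at h3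
    exact h3

end Pool.Agent.R303.CZ
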