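import Pool.Agent.R888.CM.Fin
import Pool.Agent.R303.CZ.D
import Pool.Agent.R888.QR.QU

/-!
# If `ζ` has only finitely many zeros with `Re s > 1/2 + δ/4`, there is a completely multiplicative
function with sum zero whose partial sums are `O(N^(-1/2-c))`
-/

set_option autoImplicit false

namespace Pool.Agent.R303.CZ

open Finset Filter Topology
open scoped Classical
open Pool.Agent.W76.MO
open Pool.Agent.R888.CM (ConclCM env_concl hosts)

theorem concl_of_finite : ∃ θ : ℝ, 1 / 2 < θ ∧ θ < 1 ∧
    ((∃ T : ℝ, ∀ s : ℂ, θ < s.re → s.re < 1 → T < |s.im| → riemannZeta s ≠ 0) → ConclCM) := by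
  have BTRh : BTR := Pool.Agent.W761.MO.btr
  obtain ⟨c', hc', hFew⟩ := Pool.Agent.R303.CZ.fewBad (Pool.Agent.W815.CL.cellLow BTRh)
  obtain ⟨τ₀, γ₀, c, δ₀, hτ₀, hγ₀, hc, hδ₀, hhost⟩ := hosts
  set τ : ℝ := min (min τ₀ γ₀) (1 / 100) with hτd
  have hτ : 0 < τ := lt_min (lt_min hτ₀ hγ₀) (by norm_num)
  have hτ1 : τ ≤ 1 / 100 := min_le_right _ _
  set δ : ℝ := min δ₀ (τ / 1000) with hδd
  have hδ : 0 < δ := lt_min hδ₀ (by positivity)
  have hδ1 : δ ≤ τ / 1000 := min_le_right _ _
  obtain ⟨i₀, hi₀, hhost⟩ := hhost δ hδ (min_le_left _ _)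
  refine ⟨1 / 2 + δ / 4, by linarith, by linarith, fun hz => ?_⟩
  obtain ⟨i₃, hi₃, hFew⟩ := hFew (1 / 2 + δ / 4) (by linarith) (by linarith) hz δ (δ / 2) hδ
    (by linarith) (by linarith)
  obtain ⟨isU, CU, cU, i₁, hCU, hcU, hi₁, hup, huu, hub⟩ :=
    Pool.Agent.R888.QR.uset BTRh τ δ c' hτ hτ1 hδ hδ1 hc' ⟨i₃, hi₃, fun i hi => by
      refine (hFew i hi).trans (le_of_eq ?_)
      congr 1
      ring⟩
  obtain ⟨CB, hCB, i₂, hi₂, hbtr⟩ := BTRh τ (τ / 4) hτ (by positivity)
  exact env_concl
    { τ := τ, δ := δ, CU := CU, cU := cU, cH := c, CB := max CB 1, isU := isU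
      i₁ := i₀ + i₁ + i₂
      hτ := hτ, hτ' := hτ1, hδ := hδ, hδ' := hδ1, hCU := hCU, hcU := hcU, hcH := hc
      hCB := le_max_right _ _
      hi₁ := by omega
      u_prime := hup
      u_up := fun i hi => huu i (by omega)
      u_bad := fun i hi => hub i (by omega)
      host := by
        intro i hi k hk
        have hmul := nc_mul δ hδ i
        have hlt : (k + 1) * hh δ i ≤ nc δ i * hh δ i := Nat.mul_le_mul_right _ hk
        have h1 := hhost i (by omega) (2 ^ i + k * hh δ i) (by omega) (by
          rw [pow_succ]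
          have : k * hh δ i ≤ (k + 1) * hh δ i := Nat.mul_le_mul_right _ (Nat.le_succ k)
          omega)
        refine h1.trans ?_
        have hi0 : (0 : ℝ) ≤ i := Nat.cast_nonneg i
        have hsub : (Ioc (2 ^ i + k * hh δ i) (2 ^ i + k * hh δ i + hh δ i)).filter
            (HostNum τ₀ γ₀ i) ⊆ (cell δ i k).filter (HostNum τ τ i) := by
          intro n hn
          rw [mem_filter, mem_Ioc] at hn
          rw [mem_filter]
          refine ⟨?_, ?_⟩
          · unfold cell
            rw [mem_Ioc]
            have : (k + 1) * hh δ i = k * hh δ i + hh δ i := by ring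
            omega
          · obtain ⟨m, q, h1, h2, h3, h4, h5, h6⟩ := hn.2
            refine ⟨m, q, h1, h2, ?_, h4, h5, ?_⟩
            · refine le_trans (Real.rpow_le_rpow_of_exponent_le (by norm_num) ?_) h3
              have : τ ≤ τ₀ := (min_le_left _ _).trans (min_le_left _ _)
              apply mul_le_mul_of_nonneg_right _ hi0
              linarith
            · intro p hp hpm
              refine le_trans (Real.rpow_le_rpow_of_exponent_le (by norm_num) ?_) (h6 p hp hpm)
              have : τ ≤ γ₀ := (min_le_left _ _).trans (min_le_right _ _)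
              exact mul_le_mul_of_nonneg_right this hi0
        exact_mod_cast Finset.card_le_card hsub
      btr := by
        intro i hi a L hL
        refine (hbtr i (by omega) a L hL).trans ?_
        have hi0 : (0 : ℝ) < i := by
          have : 0 < i := by omega
          exact_mod_cast this
        gcongr
        exact le_max_left _ _ }

end Pool.Agent.R303.CZ
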